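import Pool.Agent.helper99.WN.SpecC

/-! # Row `K1` of project wn: rank one -/

set_option autoImplicit false

namespace Pool.Agent.WN

theorem K1_zpow (w : Fr 1) : ∃ a : ℤ, w = FreeGroup.of (0 : Fin 1) ^ a := by
  induction w using FreeGroup.induction_on with
  | C1 => exact ⟨0, by rw [zpow_zero]⟩
  | of x => exact ⟨1, by rw [zpow_one, Subsingleton.elim x 0]⟩
  | inv_of x _ => exact ⟨-1, by rw [zpow_neg, zpow_one, Subsingleton.elim x 0]⟩
  | mul x y hx hy =>
    obtain ⟨a, rfl⟩ := hx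
    obtain ⟨b, rfl⟩ := hy
    exact ⟨a + b, by rw [zpow_add]⟩

theorem K1_comm (v w : Fr 1) : v * w = w * v := by
  obtain ⟨a, rfl⟩ := K1_zpow v
  obtain ⟨b, rfl⟩ := K1_zpow w
  rw [← zpow_add, ← zpow_add, add_comm]

/-- inversion as an automorphism of the free group of rank one -/
def K1_inv : Fr 1 ≃* Fr 1 where
  toFun := fun g => g⁻¹
  invFun := fun g => g⁻¹
  left_inv := fun g => inv_inv g
  right_inv := fun g => inv_inv g
  map_mul' := fun a b => by rw [mul_inv_rev, K1_comm]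

theorem K1_abs (w : Fr 1) (hw : ∀ (v : Fr 1) (m : ℕ), 2 ≤ m → w ≠ v ^ m) :
    w = FreeGroup.of (0 : Fin 1) ∨ w = (FreeGroup.of (0 : Fin 1))⁻¹ := by
  obtain ⟨a, ha⟩ := K1_zpow w
  have h0 : a ≠ 0 := by
    rintro rfl
    refine hw 1 2 le_rfl ?_
    rw [ha, zpow_zero, one_pow]
  have h1 : a.natAbs < 2 := by
    by_contra hcon
    rw [not_lt] at hcon
    rcases Int.natAbs_eq a with h | h
    · refine hw (FreeGroup.of (0 : Fin 1)) a.natAbs hcon ?_
      rw [ha, ← zpow_natCast, ← h]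
    · refine hw (FreeGroup.of (0 : Fin 1))⁻¹ a.natAbs hcon ?_
      rw [ha, ← zpow_natCast, inv_zpow', ← h]
  have h2 : a = 1 ∨ a = -1 := by omega
  rcases h2 with rfl | rfl
  · left; rw [ha, zpow_one]
  · right; rw [ha, zpow_neg, zpow_one]

theorem K1 (_hWA : WA_stmt) : K1_stmt := by
  intro w hw
  rcases K1_abs w hw with h | h
  · exact ⟨MulEquiv.refl _, 0, by rw [h]; rfl⟩
  · exact ⟨K1_inv, 0, by rw [h]; rfl⟩

end Pool.Agent.WN
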